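import Pool.Agent.W666.GB.Main

/-!
# The Hopf sign in every even dimension `n` for pinching `1 - c / √n`, and for curvature tensors close
to constant curvature in the Hilbert–Schmidt norm

Let `n = 2 m` be any even dimension and `G(κ)` the absolute value of the Gauss–Bonnet–Chern integrand
for constant curvature `-κ`.

(1) If at a point the mean of the sectional curvatures is `-κ < 0` and the Hilbert–Schmidt norms of
`R - R_κ` and of `Ric - Ric_κ` (`R_κ`, `Ric_κ`: constant curvature `-κ`) are at most `10⁻⁶ κ n`, then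
`|(-1)^m GB(R) - G(κ)| ≤ G(κ) / 5`. No sign of the sectional curvatures is assumed.
(2) If all sectional curvatures lie in `[-b, -a]` with `a > 0`, `b - a ≤ (3 / 4) 10⁻⁶ a / √n`, then
`(-1)^m GB(R) ≥ (4 / 5) G(a)`. (A negative curvature operator is forced only by a pinching
`1 - 3 / (n + 1)`, see Bourguignon and Karcher.)
(3) The integrated form: the Euler characteristic has the sign `(-1)^m`.

The proof is in `Pool/Agent/W666/GB/` (a development of the starting repository which no hand-in
used): the integrand is expanded in powers of `E = R - R_κ`, the term of degree `k` is written with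
random sign vectors and estimated by a spectral and a hypercontractive moment bound, which gives
`k! (C k² |E|)^k` for a sum with `n^(4 k)` summands.
-/

set_option autoImplicit false

namespace Pool.Agent.Results.MP_5a30bb_gt.NearlyConstantCurvature

open Pool.Agent.W666.GB MeasureTheory

/-- **Hopf sign in every even dimension for nearly constant negative curvature**: Hilbert–Schmidt
distance at most `10⁻⁶ κ n`, or pinching `1 - (3 / 4) 10⁻⁶ / √n`, and the integrated form. -/
theorem result :
    (∀ (m : ℕ) (V : Type) [NormedAddCommGroup V] [InnerProductSpace ℝ V]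
      (e : OrthonormalBasis (Fin m × Bool) ℝ V) (R : V → V → V → V → ℝ) (κ : ℝ),
      AlgCurv R → 0 < κ → scal e R = -(κ * (2 * m * (2 * m - 1))) →
      devR e R κ ≤ (1 / 10 ^ 6 * κ * (2 * m)) ^ 2 →
      devRic e R κ ≤ (1 / 10 ^ 6 * κ * (2 * m)) ^ 2 →
        |(-1) ^ m * gbc e R - roundGB m κ| ≤ 1 / 5 * roundGB m κ) ∧
    (∀ (m : ℕ) (V : Type) [NormedAddCommGroup V] [InnerProductSpace ℝ V]
      (e : OrthonormalBasis (Fin m × Bool) ℝ V) (R : V → V → V → V → ℝ) (a b : ℝ),
      0 < m → AlgCurv R → 0 < a → SecIn R (-b) (-a) →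
      b - a ≤ 3 / 4 * (1 / 10 ^ 6) * a / Real.sqrt (2 * m) →
        4 / 5 * roundGB m a ≤ (-1) ^ m * gbc e R) ∧
    (∀ (m : ℕ) (M : Type) [MeasurableSpace M] (μ : Measure M) (K : CurvField m M) (a b : M → ℝ),
      0 < m → μ ≠ 0 → Integrable K.gb μ →
      (∀ p, 0 < a p ∧ SecIn (K.R p) (-(b p)) (-(a p)) ∧
        b p - a p ≤ 3 / 4 * (1 / 10 ^ 6) * a p / Real.sqrt (2 * m)) →
        0 < (-1) ^ m * ∫ p, K.gb p ∂μ) := by
  refine ⟨?_, ?_, ?_⟩
  · intro m V _ _ e R κ hR hκ hsc h4 h2
    exact gbc_close e hR hκ hsc h4 h2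
  · intro m V _ _ e R a b hm hR ha hs hab
    exact sec_pinched e hm hR ha hs hab
  · intro m M _ μ K a b hm hμ hi h
    have h0 : ∀ p, 0 < (-1) ^ m * K.gb p := by
      intro p
      have h1 := sec_pinched (K.e p) hm (K.curv p) (h p).1 (h p).2.1 (h p).2.2
      have h2 := roundGB_pos (m := m) (h p).1
      show 0 < (-1) ^ m * gbc (K.e p) (K.R p)
      linarith
    rw [← integral_const_mul]
    rw [integral_pos_iff_support_of_nonneg (fun p => (h0 p).le) (hi.const_mul _)]
    have hs : Function.support (fun p => (-1) ^ m * K.gb p) = Set.univ := by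
      ext p
      simp only [Function.mem_support, Set.mem_univ, iff_true]
      exact (h0 p).ne'
    rw [hs]
    exact pos_iff_ne_zero.2 (by simpa using hμ)

end Pool.Agent.Results.MP_5a30bb_gt.NearlyConstantCurvature
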