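import Pool.Agent.TH570.Hopf.Scal

/-!
# The Hopf sign in dimension six: negative curvature with pinched Ricci curvature

If all sectional curvatures of an algebraic curvature tensor in dimension six are at most `-c < 0`
and all its Ricci curvatures are at least `-14 c` (so single sectional curvatures may be as low as
`-10 c`), then the Gauss-Bonnet-Chern integrand is at most `kap6 · c² (scal / 10 + 2 c) ≤ -kap6 · c³`,
where `kap6 = 15 / (8 π³)`; so it is at most its value for constant curvature `-c`, and a closed
Riemannian six-manifold with this property at each point has negative Euler characteristic and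
satisfies the inequality of Hopf, `(-1)³ χ ≥ 0`.

The inequality belongs to a development of the starting repository (`Pool/Agent/TH570/Hopf/`), where
it was used for positive curvature (`MP_4a593f_gt`). Idea of the proof: write `-R = c R₀ + T` with `R₀`
of constant curvature one and `T` of nonnegative sectional curvature and expand the integrand in `T`.
The dual `E` of `T ∧ T` has nonnegative sectional values by the Gauss-Bonnet inequality in dimension
four, and two tensors `A`, `E` with nonnegative sectional values satisfy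
`⟨Ric A, Ric E⟩ + (3/2) ⟨A, E⟩ ≥ 0`; the Ricci bound controls the first term.
-/

set_option autoImplicit false

namespace Pool.Agent.Results.MP_5a30bb_gt.RicciPinchedDimSix

open Hopf6 MeasureTheory Pool.Agent.TH570.Hopf

/-- **Negative curvature with Ricci pinching in dimension six.**
(1) The pointwise bound for `K ≤ -c ≤ 0` and `Ric ≥ -14 c`.
(2) The integrated bound for a field of curvature tensors with `K ≤ -c` and `Ric ≥ -14 c`, where
`c > 0` may depend on the point. -/
theorem result :
    (∀ (V : Type) [NormedAddCommGroup V] [InnerProductSpace ℝ V]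
      (e : OrthonormalBasis (Fin 6) ℝ V) (R : V → V → V → V → ℝ), AlgCurv R →
      ∀ c : ℝ, 0 ≤ c → SecLe R (-c) → (∀ x : V, ‖x‖ = 1 → -(14 * c) ≤ ric e R x) →
        Hopf6.gbc e R ≤ kap6 * (c ^ 2 * (scalar e R / 10 + 2 * c)) ∧
        kap6 * (c ^ 2 * (scalar e R / 10 + 2 * c)) ≤ -(kap6 * c ^ 3)) ∧
    (∀ (M : Type) [MeasurableSpace M] (μ : Measure M) (K : CurvField M) (c : M → ℝ), μ ≠ 0 →
      (∀ p, 0 < c p ∧ SecLe (K.R p) (-(c p)) ∧
        ∀ x : K.V p, ‖x‖ = 1 → -(14 * c p) ≤ ric (K.e p) (K.R p) x) →
      Integrable K.gbc μ →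
        ∫ p, K.gbc p ∂μ < 0 ∧
        (Integrable (fun p => c p ^ 3) μ → ∫ p, K.gbc p ∂μ ≤ -(kap6 * ∫ p, c p ^ 3 ∂μ))) := by
  have hpt : ∀ (V : Type) [NormedAddCommGroup V] [InnerProductSpace ℝ V]
      (e : OrthonormalBasis (Fin 6) ℝ V) (R : V → V → V → V → ℝ), AlgCurv R →
      ∀ c : ℝ, 0 ≤ c → SecLe R (-c) → (∀ x : V, ‖x‖ = 1 → -(14 * c) ≤ ric e R x) →
        Hopf6.gbc e R ≤ kap6 * (c ^ 2 * (scalar e R / 10 + 2 * c)) ∧
        kap6 * (c ^ 2 * (scalar e R / 10 + 2 * c)) ≤ -(kap6 * c ^ 3) := by
    intro V _ _ e R hR c hc h hr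
    refine ⟨ric_bound_neg e hR hc h hr, ?_⟩
    have h1 : 30 * c ≤ scalar e (fun x y z w => - R x y z w) :=
      scalar_ge e (neg_curv hR) fun x y hx hy hxy => by
        have := h x y hx hy hxy
        linarith
    rw [scalar_neg] at h1
    have hk := kap6_pos.le
    have h2 : 0 ≤ c ^ 2 * (-(scalar e R / 10 + 2 * c) - c) :=
      mul_nonneg (by positivity) (by linarith)
    have h3 := mul_nonneg hk h2
    nlinarith
  refine ⟨hpt, ?_⟩
  intro M _ μ K c hμ h hint
  have hle : ∀ p, K.gbc p ≤ -(kap6 * c p ^ 3) := fun p =>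
    have h1 := hpt (K.V p) (K.e p) (K.R p) (K.curv p) (c p) (h p).1.le (h p).2.1 (h p).2.2
    h1.1.trans h1.2
  have hneg : ∀ p, 0 < -(K.gbc p) := fun p => by
    have h1 := mul_pos kap6_pos (pow_pos (h p).1 3)
    have h2 := hle p
    linarith
  constructor
  · have h2 : 0 < ∫ p, -(K.gbc p) ∂μ := by
      rw [integral_pos_iff_support_of_nonneg (fun p => (hneg p).le) hint.neg]
      have hs : Function.support (fun p => -(K.gbc p)) = Set.univ := by
        ext p
        simp only [Function.mem_support, Set.mem_univ, iff_true]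
        exact (hneg p).ne'
      rw [hs]
      exact Measure.measure_univ_pos.2 hμ
    rw [integral_neg] at h2
    linarith
  · intro h3
    rw [← integral_const_mul, ← integral_neg]
    exact integral_mono hint (h3.const_mul _).neg fun p => hle p

end Pool.Agent.Results.MP_5a30bb_gt.RicciPinchedDimSix
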