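import Pool.Agent.Q144.SP.Prod

/-!
# The Hopf sign for submanifolds of products of space forms of nonpositive curvature

At a point of a submanifold `M` of dimension `2 m` with second fundamental form `β` the Gauss
equation gives the curvature tensor `extR β + T`, where `T` is the curvature tensor of the ambient
space restricted to the tangent space of `M`.

If the ambient space is the product of a Euclidean space and of space forms `N i` of dimension `d i`
and curvature `- c i ≤ 0`, then `T = ambR c P`, where `P i` is the projection of the tangent space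
of `M` to the tangent space of `N i`.

For a second fundamental form of nonpositive extrinsic curvature and of codimension at most three,
or of codimension at most `m - ∑ d i / 2`, the Gauss–Bonnet–Chern integrand of `M` is, up to the
sign `(-1) ^ m`, at least the sum of the integrands of the extrinsic part and of the ambient part,
and both are nonnegative. The reason is an expansion in the squares of decomposable two-forms of
which `T` consists: at most `d i / 2` squares of the factor `N i` can be used at the same time, so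
only the integrands of `extR β` on subspaces of dimension at least `2 (m - ∑ d i / 2)` occur, and
these have the sign of the Hopf conjecture.
-/

set_option autoImplicit false

namespace Pool.Agent.Results.MP_5a30bb_gt.SubmanifoldsOfProducts

open Pool.Agent.W666.GB Pool.Agent.W669.HD Pool.Agent.Y519.HB MeasureTheory

variable {V W : Type} [NormedAddCommGroup V] [InnerProductSpace ℝ V]
  [NormedAddCommGroup W] [InnerProductSpace ℝ W]

/-- second fundamental forms: symmetric bilinear maps from the tangent space `V` to the normal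
space `W` -/
structure SecondForm (β : V → V → W) : Prop where
  symm : ∀ x y, β x y = β y x
  add : ∀ x x' y, β (x + x') y = β x y + β x' y
  smul : ∀ (t : ℝ) (x y : V), β (t • x) y = t • β x y

/-- the extrinsic part of the curvature tensor (Gauss equation) -/
noncomputable def extR (β : V → V → W) (x y z w : V) : ℝ :=
  inner ℝ (β x z) (β y w) - inner ℝ (β x w) (β y z)

/-- the extrinsic sectional curvatures are nonpositive -/
def ExtNonpos (β : V → V → W) : Prop :=
  ∀ x y : V, inner ℝ (β x x) (β y y) - ‖β x y‖ ^ 2 ≤ 0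

/-- the ambient part of the curvature tensor for a product of space forms of dimensions `d i` and
curvatures `- c i` (and of a Euclidean space); `P i` is the projection of the tangent space of the
submanifold to the tangent space of the factor `i` -/
noncomputable def ambR {s : ℕ} (c : Fin s → ℝ) {d : Fin s → ℕ}
    (P : ∀ i, V →ₗ[ℝ] EuclideanSpace ℝ (Fin (d i))) (x y z w : V) : ℝ :=
  - ∑ i, c i * (inner ℝ (P i x) (P i z) * inner ℝ (P i y) (P i w) -
    inner ℝ (P i x) (P i w) * inner ℝ (P i y) (P i z))

/-- The ambient tensors for submanifolds of dimension `2 m` and codimension `q`. Either `q ≤ 3`, and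
`T` is minus a sum of squares of decomposable two-forms minus a nonnegative multiple of the tensor
of constant curvature one; or `T` comes from a product of a Euclidean space and space forms of
dimensions `d i` and nonpositive curvatures, and `q ≤ 3` or `q ≤ m - ∑ d i / 2`. -/
def Ambient (m q : ℕ) (T : V → V → V → V → ℝ) : Prop :=
  (q ≤ 3 ∧ ∃ (n : ℕ) (x y : Fin n → V) (δ : ℝ), 0 ≤ δ ∧
    ∀ a b a' b', T a b a' b' = - (∑ k, sqDec (x k) (y k) a b a' b') - δ * unitT a b a' b') ∨
  ∃ (s : ℕ) (c : Fin s → ℝ) (d : Fin s → ℕ)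
    (P : ∀ i, V →ₗ[ℝ] EuclideanSpace ℝ (Fin (d i))),
    (∀ i, 0 ≤ c i) ∧ (q ≤ 3 ∨ q + ∑ i, d i / 2 ≤ m) ∧ T = ambR c P

/-- the bilinear map -/
def SecondForm.map {β : V → V → W} (h : SecondForm β) : V →ₗ[ℝ] V →ₗ[ℝ] W :=
  LinearMap.mk₂ ℝ β h.add h.smul
    (fun x y y' => by rw [h.symm, h.add, h.symm y, h.symm y'])
    (fun t x y => by rw [h.symm, h.smul, h.symm y])

theorem pointwise [FiniteDimensional ℝ W] {m : ℕ} (hm : 0 < m)
    (e : OrthonormalBasis (Fin m × Bool) ℝ V) {β : V → V → W} (hs : SecondForm β)
    (hK : ExtNonpos β) {T : V → V → V → V → ℝ} (hT : Ambient m (Module.finrank ℝ W) T) :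
    0 ≤ (-1) ^ m * gbc e (extR β) ∧ 0 ≤ (-1) ^ m * gbc e T ∧
      (-1) ^ m * gbc e (extR β) + (-1) ^ m * gbc e T ≤ (-1) ^ m * gbc e (addT (extR β) T) := by
  have hK' : ∀ x y, Pool.Agent.Y489.SM.gauss hs.map x y x y ≤ 0 := fun x y => by
    rw [Pool.Agent.Y489.SM.gauss_sec hs.symm]
    exact hK x y
  have hfin : FiniteDimensional ℝ V := Module.Finite.of_basis e.toBasis
  rcases hT with ⟨hq, n, x, y, δ, hδ, hT⟩ | ⟨s, c, d, P, hc, hq, rfl⟩
  · have h1 := mono_super hm e hδ (S := extR β) (Pool.Agent.Y489.SM.gauss_curv (β := hs.map) hs.symm)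
      (fun k _ E ε => Pool.Agent.Q144.SP.her_gauss hs.map hs.symm hK' (k := k) (by omega) E ε) hT
    have h2 : 0 ≤ (-1) ^ m * gbc e (Pool.Agent.Y489.SM.gauss hs.map) := by
      have h3 := Pool.Agent.Y489.SM.case_three e hs.map hs.symm hK' hq le_rfl
      rw [Pool.Agent.Y489.SM.shift_zero] at h3
      exact (roundGB_nonneg le_rfl).trans h3
    exact ⟨h2, (roundGB_nonneg hδ).trans h1.2, h1.1⟩
  · exact Pool.Agent.Q144.SP.prod_super hm e hs.map hs.symm hK' hc P hq

/-- **The Hopf sign for submanifolds of products of space forms.** -/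
theorem result :
    (∀ (m : ℕ) (V W : Type) [NormedAddCommGroup V] [InnerProductSpace ℝ V]
      [NormedAddCommGroup W] [InnerProductSpace ℝ W] [FiniteDimensional ℝ W]
      (e : OrthonormalBasis (Fin m × Bool) ℝ V) (β : V → V → W) (T : V → V → V → V → ℝ),
      0 < m → SecondForm β → ExtNonpos β → Ambient m (Module.finrank ℝ W) T →
        0 ≤ (-1) ^ m * gbc e (extR β) ∧ 0 ≤ (-1) ^ m * gbc e T ∧
        (-1) ^ m * gbc e (extR β) + (-1) ^ m * gbc e T ≤
          (-1) ^ m * gbc e (addT (extR β) T)) ∧
    (∀ (m : ℕ) (M : Type) [MeasurableSpace M] (μ : Measure M) (K : CurvField m M) (q : M → ℕ)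
      (β : ∀ p, K.V p → K.V p → EuclideanSpace ℝ (Fin (q p)))
      (T : ∀ p, K.V p → K.V p → K.V p → K.V p → ℝ), 0 < m →
      (∀ p, SecondForm (β p) ∧ ExtNonpos (β p) ∧ Ambient m (q p) (T p) ∧
        K.R p = addT (extR (β p)) (T p)) →
      0 ≤ (-1) ^ m * ∫ p, K.gb p ∂μ ∧
        (Integrable K.gb μ →
          ∫ p, ((-1) ^ m * gbc (K.e p) (extR (β p)) + (-1) ^ m * gbc (K.e p) (T p)) ∂μ ≤
            (-1) ^ m * ∫ p, K.gb p ∂μ)) := by
  refine ⟨fun m V W _ _ _ _ _ e β T hm hs hK hT => pointwise hm e hs hK hT, ?_⟩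
  intro m M _ μ K q β T hm h
  have h1 : ∀ p, 0 ≤ (-1) ^ m * gbc (K.e p) (extR (β p)) + (-1) ^ m * gbc (K.e p) (T p) ∧
      (-1) ^ m * gbc (K.e p) (extR (β p)) + (-1) ^ m * gbc (K.e p) (T p) ≤ (-1) ^ m * K.gb p := by
    intro p
    obtain ⟨hs, hK, hT, hR⟩ := h p
    have h2 := pointwise hm (K.e p) hs hK (by simpa using hT)
    refine ⟨add_nonneg h2.1 h2.2.1, ?_⟩
    rw [CurvField.gb, hR]
    exact h2.2.2
  rw [← integral_const_mul]
  refine ⟨integral_nonneg fun p => (h1 p).1.trans (h1 p).2, fun hi => ?_⟩
  exact integral_mono_of_nonneg (Filter.Eventually.of_forall fun p => (h1 p).1)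
    (hi.const_mul _) (Filter.Eventually.of_forall fun p => (h1 p).2)

end Pool.Agent.Results.MP_5a30bb_gt.SubmanifoldsOfProducts
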